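import Pool.Agent.Q245.STS.Main

/-!
# The block graphs of Steiner triple systems and the tests of dimension `c log n`

There is a constant `C` such that for every `k ≥ 1` there are two Steiner triple systems on the same
set of `v = 3 ^ r` points, `r ≤ C k`, whose block graphs are not isomorphic but are distinguished
neither by the `k`-dimensional Weisfeiler-Leman method nor by the `k`-dimensional
invertible-map test of Dawar and Holm over all fields of characteristic different from three. The
block graphs have `n = v (v - 1) / 6` vertices, so for the block graphs of Steiner triple systems
on `n` vertices both tests need dimension of order `log n`; as a Steiner triple system on `v`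
points is generated by at most `log v + 1` points, dimension of this order is enough.

The systems are Hall triple systems: every point is the only fixed point of an automorphism
of order two. Equivalently, any three points that are not in a block generate an affine plane of
order three. This is the richest class of Steiner triple systems next to the affine ones.

The earlier lower bounds for strongly regular graphs, `MP_d81a4d_co.LogDimension`,
`MP_f1a348_lc.GroupWLDimension` and `MP_f1a348_lc.InvertibleMapGroups`, are about Latin square
graphs.

Proof idea. The points are the triples `(s, u, z)`, `s ∈ F_3`, `u ∈ V = A × B`, `z ∈ Γ`, and the
third point of the block of `(s, u, z)` and `(t, v, w)` is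
`(- s - t, - u - v, - z - w - (s - t) β(u, v))` for an alternating map `β : V × V → Γ`, taken from
the groups of exponent three and class two of `MP_f1a348_lc.GroupWLDimension`. The group can be
recovered from the system: a point is in the hyperplane `s = 0` (for a suitable choice of the
origin) if and only if it associates with many points of the commutative Moufang loop of the
system. So the two systems are not isomorphic, and an isomorphism of the block graphs is one of
the systems because eight blocks that meet each other have a common point. On the other hand the
linear maps `M : A → B` act by shears of the points. On the few-dimensional subspaces `U` of `A`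
there are shears that move one system to the other. The shear of `M` is only used on the blocks whose
components in `A` span a space `U` on which it is right; on the other ones it is corrected
by a linear projection to the space of the maps without effect on `U`. The corrected maps are again
a torsor for the linear maps `A → B`, and the general theorem of `MP_f1a348_lc.InvertibleMapGroups`
on such actions applies.
-/

set_option autoImplicit false

namespace Pool.Agent.Results.MP_128e7d_lc.SteinerInvertibleMaps

open Pool.Agent.Q245.STS Pool.Agent.W185.SRG Pool.Agent.TH658.Sos

theorem result : ∃ C : ℕ, ∀ k : ℕ, 1 ≤ k →
    ∃ (X : Type) (_ : Fintype X) (_ : DecidableEq X) (D E : Finset (Finset X)) (r : ℕ),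
      r ≤ C * k ∧ Fintype.card X = 3 ^ r ∧ IsHall D ∧ IsHall E ∧
      IsEmpty (blockGraph D ≃g blockGraph E) ∧
      WLEquivalent k (blockGraph D) (blockGraph E) ∧
      IMEquiv 3 k (blockGraph D) (blockGraph E) := by
  refine ⟨1351, fun k hk => ?_⟩
  obtain ⟨X, i1, i2, D, E, r, h1, h2, h3, h4, h5, h6, -⟩ := core (8 * k) (by omega)
  exact ⟨X, i1, i2, D, E, r, by omega, h2, h3, h4, h5, (h6 k hk le_rfl).2, (h6 k hk le_rfl).1⟩

end Pool.Agent.Results.MP_128e7d_lc.SteinerInvertibleMaps
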