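import Pool.Agent.Q329.GT.Main

/-!
# Read-once tensor networks for robust graph isomorphism need exponential size in `n ^ 2`

Two graphs on `n` vertices are given by their adjacency bits (`Position n`: the pairs of different
vertices of the first and of the second graph). The model: tree tensor networks over any field (the
leaves read one bit each and contain a vector for each value of it, the inner nodes combine the vectors
of their two children by an arbitrary bilinear map, the output is a linear form of the vector of the
root), in which each bit is read at most once. The shape of the tree is arbitrary; the vectors have
`card W` coordinates (the bond dimension). A pair of graphs is accepted if the output is not zero. A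
random network is a finite nonempty family of networks from which one is chosen uniformly at random;
the fields, trees and dimensions may be different.

(1) For all `ε, c > 0` there is `D` such that for all `n ≥ D`: if the networks of a family never accept
a pair of graphs for which every bijection makes at least `(1 / 4 - ε) n ^ 2` errors, and accept each
isomorphic pair with probability at least `c`, then one of them has dimension `w` with
`2 ^ (n ^ 2) ≤ w ^ D`.

(2) A linear network of dimension `2 ^ (n (n - 1))` that reads each bit once decides isomorphism: it
remembers the whole input. So (1) is best possible up to the constant `D`, and with read-once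
networks nothing essential can be gained over remembering the input, even if only isomorphic
pairs have to be told from pairs which are as far from isomorphic as two random graphs.

For `ε ≥ 1 / 4` all pairs of graphs would have to be rejected, which contradicts the acceptance of the
isomorphic ones; the interesting case is that of small `ε`.

The proof: by the replacement lemma (`Pool/Agent/TH700/PA`) a network that accepts many pairs
`(G, π G)` also accepts many mixtures, in which the positions are divided into boundedly many parts and
each part shows another graph `G`, with the same `π`. For most permutations `π` only few pairs of
vertices have their two bits in the same part. Then the bits that a bijection compares are different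
random bits, the comparisons split into two triangular systems of equations, and an exponential
moment bound shows that all but a fraction `exp (- c' n ^ 2)` of the mixtures are far from isomorphic.
-/

set_option autoImplicit false

namespace Pool.Agent.Results.MP_128e7d_lc.TensorNetworks

open Pool.Agent.Q329.GT Pool.Agent.TH700.PA

/-- (1) For all `ε, c > 0` there is `D` such that for all `n ≥ D`: a finite nonempty family of tree
tensor networks on the adjacency bits of two graphs on `n` vertices which read each bit at most once,
never accept a pair for which every bijection makes at least `(1 / 4 - ε) n ^ 2` errors, and accept each
isomorphic pair with probability at least `c`, contains a network of bond dimension `w` with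
`2 ^ (n ^ 2) ≤ w ^ D`.

(2) For `n ≥ 2` some linear network over the rational numbers which reads each bit once, with one basis
vector for each pair of graphs (`2 ^ (n (n - 1))` of them), accepts exactly the isomorphic pairs. -/
theorem result :
    (∀ ε c : ℝ, 0 < ε → 0 < c → ∃ D : ℕ, ∀ n : ℕ, D ≤ n →
      ∀ (R : Type) [Fintype R] [Nonempty R] (K W : R → Type) [∀ ρ, Field (K ρ)]
        [∀ ρ, Fintype (W ρ)] (T : ∀ ρ, Net (K ρ) (Position n) Bool (W ρ)) (a : ∀ ρ, W ρ → K ρ),
        (∀ ρ v, (T ρ).reads v ≤ 1) →
        (∀ ρ x, Far ε x → (T ρ).value (a ρ) x = 0) →
        (∀ x, Isomorphic x → c * Nat.card R ≤ Nat.card {ρ // (T ρ).value (a ρ) x ≠ 0}) →
        ∃ ρ, 2 ^ n ^ 2 ≤ Fintype.card (W ρ) ^ D) ∧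
    ∀ n : ℕ, 2 ≤ n →
      ∃ (T : Net ℚ (Position n) Bool (Position n → Bool)) (a : (Position n → Bool) → ℚ),
        T.Linear ∧ (∀ v, T.reads v = 1) ∧ ∀ x, (T.value a x ≠ 0 ↔ Isomorphic x) :=
  ⟨fun ε c hε hc => gi_lower ε c hε hc, fun n hn => gi_upper n hn⟩

end Pool.Agent.Results.MP_128e7d_lc.TensorNetworks
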