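import Pool.Agent.TH658.Dg.TMain

/-!
# Algebraic and sum-of-squares proofs of linear degree are needed for tournaments

There is a constant `C` such that for every `d ≥ 1` there are two non-isomorphic tournaments on at
most `C d` vertices whose isomorphism is refuted in degree `d` neither by the polynomial calculus
over any field nor by the Positivstellensatz calculus (sums of squares) over the reals, although the
isomorphism of tournaments is decidable in time `n ^ O(log n)` (Babai and Luks) and all the
automorphism groups involved are solvable of odd order.
-/

set_option autoImplicit false

namespace Pool.Agent.Results.MP_128e7d_lc.TournamentProofs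

open Pool.Agent.TH658.Dg

/-- Refutations of the isomorphism of tournaments on `n` vertices need degree at least `n / C`, in
the polynomial calculus over every field and in the Positivstellensatz calculus. -/
theorem result : ∃ C : ℕ, ∀ d : ℕ, 1 ≤ d →
    ∃ (V : Type) (_ : Fintype V) (T T' : V → V → Prop),
      Fintype.card V ≤ C * d ∧ IsTournament T ∧ IsTournament T' ∧
      (¬ ∃ φ : V ≃ V, ∀ x y, T x y ↔ T' (φ x) (φ y)) ∧
      (∀ (K : Type) [Field K], ¬ PCRefutes K T T' d) ∧ ¬ PosRefutes T T' d :=
  ⟨10 ^ 18, mainProofs⟩

end Pool.Agent.Results.MP_128e7d_lc.TournamentProofs
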