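import Pool.Agent.Q329.GF.Main

/-!
# Graph isomorphism for circuits with monotone gates and very few unreliable negated inputs

The model: randomised circuits whose inputs are the adjacency bits of two graphs on `N` vertices and
their negations, with gates that compute arbitrary nondecreasing real functions of two arguments. All
circuits with AND, OR and NOT gates can be brought into this form by doubling their size. There is no
bound on the depth and no symmetry condition. A randomised circuit is a finite nonempty family of
circuits from which one is chosen uniformly at random.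

Faults: each of the `N (N - 1)` negated inputs (the information that two vertices are not adjacent) is
stuck at `0`, independently with probability `1 / D`. The other inputs are reliable.

Result: for every `h > 0` there is `δ > 0` such that for all large `N` and `1 ≤ D ≤ N ^ (2 - h)`
randomised circuits which accept the isomorphic pairs with probability at least `4 / 5` under faults,
and the non-isomorphic pairs with probability at most `1 / 4` without faults, need
`(2 ^ (N ^ δ) - 2) / 3` gates. The same holds with isomorphic and non-isomorphic pairs interchanged.

So exponential size is needed as soon as `N ^ h` of the `N (N - 1)` negated inputs fail on average,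
for arbitrarily small `h > 0`. If fewer than a constant number fails on average then no lower bound
is known or expected, because such circuits are as strong as general circuits. For `D = 1` all negated
inputs are faulty, which is the monotone case.

The proof: random systems of linear equations over the field with two elements with four variables in
each equation (`dich_ind` of the starting development `Pool/Agent/H630XR`, `H630GI`, monotone real
circuits do not tell the unsolvable ones from the solvable ones) are turned into pairs of graphs. The
gadgets of all possible equations are always present; a single edge between two sets of `N ^ (1 - o(1))`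
vertices tells whether the equation has to be satisfied. The place of this edge is chosen at random,
independently in both graphs, and the places that other equations would get are as good as random
faulty inputs (`Pool/Agent/Y630`). So all negated inputs that depend on the system can be replaced by
`0`.
-/

set_option autoImplicit false

namespace Pool.Agent.Results.MP_128e7d_lc.UnreliableNegations

/-- A circuit with the gates `0, ..., s - 1` whose inputs are the bits of the positions `e` in `E` and
their negations: `(e, true)` stands for the bit of `e` and `(e, false)` for its negation. Gate `i`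
has `w i ≤ 2` inputs, namely `a i j`, each a literal (`0` or `1`) or an earlier gate; it computes a
nondecreasing function `op i` of real numbers, and its value on the values `y` of the literals is
`val y i`. The circuit accepts if the value of gate `out` is at least `τ`. -/
structure LiteralCircuit (E : Type) where
  s : ℕ
  w : Fin s → ℕ
  a : (i : Fin s) → Fin (w i) → (E × Bool) ⊕ Fin s
  op : (i : Fin s) → (Fin (w i) → ℝ) → ℝ
  val : (E × Bool → Bool) → Fin s → ℝ
  out : Fin s
  τ : ℝ
  earlier : ∀ i j m, a i j = Sum.inr m → m < i
  mono : ∀ i, w i ≤ 2 ∧ Monotone (op i)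
  spec : ∀ y i, val y i = op i (fun j =>
    Sum.elim (fun p => if y p = true then (1 : ℝ) else 0) (val y) (a i j))

/-- The positions: the pairs of different vertices of the first graph (`false`) and of the second
graph (`true`). -/
abbrev Pairs (N : ℕ) : Type := Bool × {e : Sym2 (Fin N) // ¬ e.IsDiag}

/-- The graph number `k` with the adjacency bits `z`. -/
def graph {N : ℕ} (z : Pairs N → Bool) (k : Bool) : SimpleGraph (Fin N) :=
  SimpleGraph.fromEdgeSet {e | ∃ h : ¬ e.IsDiag, z (k, ⟨e, h⟩) = true}

/-- The two graphs are isomorphic. -/
def Isomorphic {N : ℕ} (z : Pairs N → Bool) : Prop := Nonempty (graph z false ≃g graph z true)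

open Classical in
/-- The values of the literals for the bits `z` if the negated inputs of the positions in `Z` are
stuck at `0`. -/
noncomputable def literals {E : Type} (z : E → Bool) (Z : Set E) : E × Bool → Bool :=
  fun p => if p.2 = true then z p.1 else if p.1 ∈ Z then false else !z p.1

/-- The circuit accepts `z` if the negated inputs of the positions in `Z` are stuck at `0`. -/
def LiteralCircuit.Accepts {E : Type} (C : LiteralCircuit E) (z : E → Bool) (Z : Set E) : Prop :=
  C.τ ≤ C.val (literals z Z) C.out

/-- The probability that `z` is accepted by a circuit that is chosen uniformly at random from the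
family `C`, without faults. -/
noncomputable def acceptance {E R : Type} (C : R → LiteralCircuit E) (z : E → Bool) : ℝ :=
  (Nat.card {ρ : R // (C ρ).Accepts z ∅} : ℝ) / Nat.card R

/-- The probability that `z` is accepted by a circuit that is chosen uniformly at random from the
family `C`, if each negated input is stuck at `0` independently with probability `1 / D` (each
position `e` gets a random number `f e` from `0` to `D - 1`, and `0` means a fault). -/
noncomputable def faultyAcceptance {E R : Type} (C : R → LiteralCircuit E) (D : ℕ)
    (z : E → Bool) : ℝ :=
  (Nat.card {v : R × (E → Fin D) // (C v.1).Accepts z {e | (v.2 e : ℕ) = 0}} : ℝ) /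
    Nat.card (R × (E → Fin D))

/-- The family of circuits `C` decides the property `A` of pairs of graphs in the presence of
faults with probability `1 / D`: it accepts the pairs with the property with probability at least
`4 / 5` under faults, and the other pairs with probability at most `1 / 4` without faults. -/
def Tolerates {N : ℕ} {R : Type} (C : R → LiteralCircuit (Pairs N)) (D : ℕ)
    (A : (Pairs N → Bool) → Prop) : Prop :=
  (∀ z, A z → 4 / 5 ≤ faultyAcceptance C D z) ∧ ∀ z, ¬ A z → acceptance C z ≤ 1 / 4

/-- For every `h > 0` there is `δ > 0` such that for all large `N` and `1 ≤ D ≤ N ^ (2 - h)`: if a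
finite nonempty family of circuits on literals with nondecreasing real gates of fan-in at most two and
with at most `s` gates decides isomorphism, or non-isomorphism, of the pairs of graphs on `N`
vertices in the presence of faults with probability `1 / D`, then `2 ^ (N ^ δ) ≤ 3 s + 2`. -/
theorem result (h : ℝ) (hh : 0 < h) :
    ∃ δ : ℝ, 0 < δ ∧ ∃ N₀ : ℕ, ∀ N : ℕ, N₀ ≤ N → ∀ D : ℕ, 1 ≤ D → (D : ℝ) ≤ (N : ℝ) ^ (2 - h) →
      ∀ (R : Type) [Finite R] [Nonempty R] (C : R → LiteralCircuit (Pairs N)) (s : ℕ),
        (∀ ρ, (C ρ).s ≤ s) →
        (Tolerates C D Isomorphic ∨ Tolerates C D (fun z => ¬ Isomorphic z)) →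
        (2 : ℝ) ^ ((N : ℝ) ^ δ) ≤ 3 * s + 2 := by
  classical
  obtain ⟨δ, hδ, N₀, H⟩ := Pool.Agent.Q329.GF.main h hh
  refine ⟨δ, hδ, N₀, fun N hN D hD hDN R _ _ C s hs hC => ?_⟩
  let _ : Fintype R := Fintype.ofFinite R
  have hR : (0 : ℝ) < Fintype.card R := by exact_mod_cast Fintype.card_pos
  have hDR : (0 : ℝ) < D := by exact_mod_cast hD
  have hlit : ∀ (z : Pairs N → Bool) (Z : Set (Pairs N)),
      Pool.Agent.Y630.TF.lit z Z = literals z Z := by
    intro z Z
    funext q
    unfold Pool.Agent.Y630.TF.lit literals
    by_cases hq : q.2 = true
    · rw [if_pos hq, if_pos hq]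
    · rw [if_neg hq, if_neg hq]
      by_cases hZ : q.1 ∈ Z
      · simp [hZ]
      · simp [hZ]
  set C' : R → Pool.Agent.W969.MC.RC (Pairs N × Bool) := fun ρ => ⟨(C ρ).s, ∅,
    (C ρ).w, (C ρ).a, (C ρ).op, fun _ _ => 0, (C ρ).val, (C ρ).out, (C ρ).τ, (C ρ).earlier,
    fun i _ => (C ρ).mono i, fun i hi => absurd hi (Finset.notMem_empty i), (C ρ).spec⟩ with hC'
  have key : ∀ A : (Pairs N → Bool) → Prop, Tolerates C D A →
      (∀ z : Pairs N → Bool, A z →
        (4 / 5 : ℝ) * (Fintype.card R * (D : ℝ) ^ Fintype.card (Pairs N)) ≤
        ({s : R × (Pairs N → Fin D) | (C' s.1).acc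
          (Pool.Agent.Y630.TF.lit z (Pool.Agent.Y630.NW.Flt s.2))}.ncard : ℝ)) ∧
      (∀ z : Pairs N → Bool, ¬ A z →
        ({ρ : R | (C' ρ).acc (Pool.Agent.Y630.TF.lit z ∅)}.ncard : ℝ) ≤
          1 / 4 * Fintype.card R) := by
    intro A hA
    refine ⟨fun z hz => ?_, fun z hz => ?_⟩
    · have h3 := hA.1 z hz
      unfold faultyAcceptance at h3
      rw [le_div_iff₀ (by
        rw [Nat.card_eq_fintype_card, Fintype.card_prod, Fintype.card_fun, Fintype.card_fin]
        push_cast
        positivity)] at h3
      rw [Nat.card_eq_fintype_card (α := R × (Pairs N → Fin D)),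
        Fintype.card_prod, Fintype.card_fun, Fintype.card_fin] at h3
      refine (le_of_eq ?_).trans (h3.trans (le_of_eq ?_))
      · push_cast
        rfl
      congr 1
      show Nat.card ↥{v : R × (Pairs N → Fin D) |
        (C v.1).Accepts z {c | (v.2 c : ℕ) = 0}} = _
      rw [Nat.card_coe_set_eq]
      congr 1
      ext v
      show (C v.1).τ ≤ (C v.1).val (literals z {c | (v.2 c : ℕ) = 0}) (C v.1).out ↔
        (C v.1).τ ≤ (C v.1).val (Pool.Agent.Y630.TF.lit z
          (Pool.Agent.Y630.NW.Flt v.2)) (C v.1).out
      rw [hlit]
      rfl
    · have h3 := hA.2 z hz
      unfold acceptance at h3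
      rw [div_le_iff₀ (by rw [Nat.card_eq_fintype_card]; exact hR),
        Nat.card_eq_fintype_card (α := R)] at h3
      refine (le_of_eq ?_).trans h3
      congr 1
      show _ = Nat.card ↥{ρ : R | (C ρ).Accepts z ∅}
      rw [Nat.card_coe_set_eq]
      congr 1
      ext ρ
      show (C ρ).τ ≤ (C ρ).val (Pool.Agent.Y630.TF.lit z ∅) (C ρ).out ↔
        (C ρ).τ ≤ (C ρ).val (literals z ∅) (C ρ).out
      rw [hlit]
  rcases hC with hC | hC
  · exact H N hN D hD hDN Isomorphic (Or.inl fun z => Iff.rfl) R C' s (fun _ => rfl) hs
      (key _ hC).1 (key _ hC).2
  · exact H N hN D hD hDN (fun z => ¬ Isomorphic z) (Or.inr fun z => Iff.rfl) R C' s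
      (fun _ => rfl) hs (key _ hC).1 (key _ hC).2

end Pool.Agent.Results.MP_128e7d_lc.UnreliableNegations
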